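import Mathlib
import Pool.Agent.Q58.Comb

/-!
# Functions on products of symmetric groups that alternate in each variable
-/

namespace Q58

open Finset Equiv

variable {T : Type*} [Fintype T] [DecidableEq T] {ι : T → Type*} [∀ t, Fintype (ι t)]
  [∀ t, DecidableEq (ι t)] {g : T → ℕ} {M : Type*} [AddCommGroup M] [Module ℚ M]

/-- The functions that alternate in the variables of `A` and do not depend on the others. -/
def altIn (g : T → ℕ) (M : Type*) [AddCommGroup M] (A : Finset T) :
    AddSubgroup ((∀ t, Perm (ι t)) → M) where
  carrier := {F | (∀ t ∈ A, ∀ σ : ∀ t, Perm (ι t),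
      AltFun (g t) fun π => F (Function.update σ t π)) ∧
    ∀ t, t ∉ A → ∀ (σ : ∀ t, Perm (ι t)) (π : Perm (ι t)), F (Function.update σ t π) = F σ}
  add_mem' := by
    rintro F F' ⟨h1, h2⟩ ⟨h1', h2'⟩
    refine ⟨fun t ht σ => (h1 t ht σ).add (h1' t ht σ), fun t ht σ π => ?_⟩
    rw [Pi.add_apply, Pi.add_apply, h2 t ht, h2' t ht]
  zero_mem' := by
    refine ⟨fun t _ σ => ?_, fun t _ σ π => rfl⟩
    intro S _ τ
    simp
  neg_mem' := by
    rintro F ⟨h1, h2⟩
    refine ⟨fun t ht σ => (h1 t ht σ).neg, fun t ht σ π => ?_⟩
    rw [Pi.neg_apply, Pi.neg_apply, h2 t ht]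

omit [∀ t, Fintype (ι t)] [∀ t, DecidableEq (ι t)] [AddCommGroup M] [Module ℚ M] in
lemma const_of_indep (F : (∀ t, Perm (ι t)) → M)
    (h : ∀ t (σ : ∀ t, Perm (ι t)) (π : Perm (ι t)), F (Function.update σ t π) = F σ)
    (σ τ : ∀ t, Perm (ι t)) : F σ = F τ := by
  classical
  have key : ∀ S : Finset T, F (S.piecewise σ τ) = F τ := by
    intro S
    induction S using Finset.induction_on with
    | empty => rw [Finset.piecewise_empty]
    | insert a S ha ih => rw [Finset.piecewise_insert, h, ih]
  have := key univ
  rwa [Finset.piecewise_univ] at this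

/-- **Vanishing for several symmetric groups.** -/
theorem multi_alt_eq_zero (c : (∀ t, Perm (ι t)) → ℚ)
    (hc : ∀ w w' : ∀ t, ι t → Fin (g t),
      ∑ σ : ∀ t, Perm (ι t), (if ∀ t, w' t ∘ σ t = w t then c σ else 0) = 0)
    (F : (∀ t, Perm (ι t)) → M)
    (hF : ∀ t (σ : ∀ t, Perm (ι t)), AltFun (g t) fun π => F (Function.update σ t π)) :
    ∑ σ : ∀ t, Perm (ι t), c σ • F σ = 0 := by
  classical
  suffices H : ∀ (A : Finset T) (w w' : ∀ t, ι t → Fin (g t)) (F : (∀ t, Perm (ι t)) → M),
      F ∈ altIn g M A →
      ∑ σ : ∀ t, Perm (ι t), (if ∀ t, t ∉ A → w' t ∘ σ t = w t then c σ else 0) • F σ = 0 by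
    by_cases hw : ∀ t, Nonempty (ι t → Fin (g t))
    · have w : ∀ t, ι t → Fin (g t) := fun t => (hw t).some
      have h := H univ w w F ⟨fun t _ => hF t, fun t ht => absurd (mem_univ t) ht⟩
      rw [← h]
      apply Finset.sum_congr rfl
      intro σ _
      rw [if_pos (fun t ht => absurd (mem_univ t) ht)]
    · push Not at hw
      obtain ⟨t, ht⟩ := hw
      -- here `g t = 0` and `ι t` is nonempty, so `F = 0`
      have hne : Nonempty (ι t) := by
        by_contra h
        rw [not_nonempty_iff] at h
        exact ht.false fun i => (h.false i).elim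
      have hg : g t = 0 := by
        by_contra h
        exact ht.false fun _ => ⟨0, Nat.pos_of_ne_zero h⟩
      have hF0 : ∀ σ, F σ = 0 := by
        intro σ
        obtain ⟨i⟩ := hne
        have h1 := hF t σ {i} (by rw [hg]; simp) (σ t)
        have h2 : symOn ({i} : Finset (ι t)) = {1} := by
          ext π
          rw [mem_symOn, mem_singleton]
          constructor
          · intro h
            ext j
            by_cases hj : j = i
            · subst hj
              by_contra hne
              have h3 : π j ∉ ({j} : Finset (ι t)) := by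
                rw [mem_singleton]; exact hne
              have h4 := h _ h3
              have h5 := π.injective h4
              exact h3 (by rw [h5]; simp)
            · rw [h j (by simpa using hj)]; rfl
          · rintro rfl j _; rfl
        rw [h2, sum_singleton] at h1
        simpa using h1
      apply Finset.sum_eq_zero
      intro σ _
      rw [hF0, smul_zero]
  intro A
  induction A using Finset.induction_on with
  | empty =>
    rintro w w' F ⟨-, hF2⟩
    have hconst : ∀ σ, F σ = F 1 := fun σ => const_of_indep F (fun t => hF2 t (by simp)) σ 1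
    have h1 := hc w w'
    calc ∑ σ : ∀ t, Perm (ι t), (if ∀ t, t ∉ (∅ : Finset T) → w' t ∘ σ t = w t then c σ else 0) •
          F σ = ∑ σ : ∀ t, Perm (ι t), (if ∀ t, w' t ∘ σ t = w t then c σ else 0) • F 1 := by
          apply Finset.sum_congr rfl
          intro σ _
          rw [hconst σ]
          congr 1
          have : (∀ t, t ∉ (∅ : Finset T) → w' t ∘ σ t = w t) ↔ ∀ t, w' t ∘ σ t = w t := by
            simp
          by_cases h : ∀ t, w' t ∘ σ t = w t
          · rw [if_pos h, if_pos (this.2 h)]
          · rw [if_neg h, if_neg fun h' => h (this.1 h')]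
      _ = 0 := by rw [← Finset.sum_smul, h1, zero_smul]
  | insert t₀ A ht₀ ih =>
    rintro w w' F ⟨hF1, hF2⟩
    let f : Perm (ι t₀) → altIn (ι := ι) g M A := fun π =>
      ⟨fun σ => F (Function.update σ t₀ π), by
        refine ⟨fun t ht σ => ?_, fun t ht σ ρ => ?_⟩
        · have hne : t ≠ t₀ := fun h => ht₀ (h ▸ ht)
          have h1 := hF1 t (Finset.mem_insert_of_mem ht) (Function.update σ t₀ π)
          intro S hS τ
          rw [← h1 S hS τ]
          apply Finset.sum_congr rfl
          intro ρ _
          beta_reduce
          rw [Function.update_comm hne]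
        · by_cases h : t = t₀
          · subst h
            simp only [Function.update_idem]
          · beta_reduce
            rw [Function.update_comm h]
            exact hF2 t (by simp [h, ht]) _ _⟩
    have hfF : ∀ σ : ∀ t, Perm (ι t), (f (σ t₀)).1 σ = F σ := by
      intro σ
      simp only [f, Function.update_eq_self]
    have hf : AltFun (g t₀) f := by
      intro S hS τ
      apply Subtype.ext
      funext σ
      have h1 := hF1 t₀ (Finset.mem_insert_self _ _) σ S hS τ
      rw [AddSubgroup.val_finsetSum, Finset.sum_apply]
      simp only [f, AddSubgroup.coe_zsmul, Pi.smul_apply]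
      exact h1
    have hmem := hf.mem_closure
    have hQ : ∑ σ : ∀ t, Perm (ι t), (if ∀ t, t ∉ insert t₀ A → w' t ∘ σ t = w t then c σ else 0) •
        (f (σ t₀)).1 σ = 0 := by
      refine AddSubgroup.closure_induction (p := fun (f : Perm (ι t₀) → altIn (ι := ι) g M A) _ =>
        ∑ σ : ∀ t, Perm (ι t), (if ∀ t, t ∉ insert t₀ A → w' t ∘ σ t = w t then c σ else 0) •
        (f (σ t₀)).1 σ = 0) ?_ ?_ ?_ ?_ hmem
      · rintro _ ⟨v, v', m, rfl⟩
        have h1 := ih (Function.update w t₀ v) (Function.update w' t₀ v') m.1 m.2
        rw [← h1]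
        apply Finset.sum_congr rfl
        intro σ _
        have hiff : (∀ t, t ∉ A → Function.update w' t₀ v' t ∘ σ t = Function.update w t₀ v t) ↔
            (∀ t, t ∉ insert t₀ A → w' t ∘ σ t = w t) ∧ v' ∘ σ t₀ = v := by
          constructor
          · intro h
            refine ⟨fun t ht => ?_, ?_⟩
            · have hne : t ≠ t₀ := fun h' => ht (by rw [h']; exact Finset.mem_insert_self _ _)
              have := h t (fun h' => ht (Finset.mem_insert_of_mem h'))
              rwa [Function.update_of_ne hne, Function.update_of_ne hne] at this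
            · have := h t₀ ht₀
              rwa [Function.update_self, Function.update_self] at this
          · rintro ⟨h, h'⟩ t ht
            by_cases hne : t = t₀
            · subst hne
              rw [Function.update_self, Function.update_self]; exact h'
            · rw [Function.update_of_ne hne, Function.update_of_ne hne]
              exact h t (by simp [hne, ht])
        unfold wordFun
        by_cases h2 : v' ∘ σ t₀ = v
        · rw [if_pos h2]
          congr 1
          by_cases h3 : ∀ t, t ∉ insert t₀ A → w' t ∘ σ t = w t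
          · rw [if_pos h3, if_pos (hiff.2 ⟨h3, h2⟩)]
          · rw [if_neg h3, if_neg fun h => h3 (hiff.1 h).1]
        · rw [if_neg h2, if_neg fun h => h2 (hiff.1 h).2]
          simp
      · simp
      · intro F F' _ _ h h'
        simp only [Pi.add_apply, AddSubgroup.coe_add, smul_add, sum_add_distrib, h, h', add_zero]
      · intro F _ h
        simp only [Pi.neg_apply, AddSubgroup.coe_neg, smul_neg, sum_neg_distrib, h, neg_zero]
    rw [← hQ]
    apply Finset.sum_congr rfl
    intro σ _
    rw [hfF]

end Q58
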