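import Mathlib

/-!
# Determinants of block diagonal matrices as sums over products of symmetric groups
-/

namespace Q58

open Finset Equiv

variable {T : Type*} [Fintype T] [DecidableEq T] {ι : T → Type*} [∀ t, Fintype (ι t)]
  [∀ t, DecidableEq (ι t)]

lemma sign_sigmaCongrRight (σ : ∀ t, Perm (ι t)) :
    Perm.sign (Perm.sigmaCongrRight σ) = ∏ t, Perm.sign (σ t) := by
  classical
  -- both sides are homomorphisms
  let φ : (∀ t, Perm (ι t)) →* ℤˣ := Perm.sign.comp (Perm.sigmaCongrRightHom ι)
  let ψ : (∀ t, Perm (ι t)) →* ℤˣ :=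
    { toFun := fun σ => ∏ t, Perm.sign (σ t)
      map_one' := by simp
      map_mul' := by intro a b; simp [Finset.prod_mul_distrib] }
  suffices h : φ = ψ by exact congrArg (fun f => f σ) h
  apply MonoidHom.pi_ext
  intro t π
  induction π using Perm.swap_induction_on with
  | one =>
    have : (Pi.mulSingle t (1 : Perm (ι t)) : ∀ t, Perm (ι t)) = 1 := Pi.mulSingle_one t
    rw [this, map_one, map_one]
  | swap_mul π a b hab ih =>
    have h1 : (Pi.mulSingle t (swap a b * π) : ∀ t, Perm (ι t)) =
        Pi.mulSingle t (swap a b) * Pi.mulSingle t π := Pi.mulSingle_mul t _ _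
    rw [h1, map_mul, map_mul, ih]
    congr 1
    have h2 : φ (Pi.mulSingle t (swap a b)) = -1 := by
      have h3 : Perm.sigmaCongrRight (Pi.mulSingle t (swap a b) : ∀ t, Perm (ι t)) =
          swap (⟨t, a⟩ : Σ t, ι t) ⟨t, b⟩ := by
        ext1 ⟨s, j⟩
        by_cases hs : s = t
        · subst hs
          by_cases hja : j = a
          · subst hja
            rw [swap_apply_left]
            simp [Perm.sigmaCongrRight, Equiv.sigmaCongrRight]
          · by_cases hjb : j = b
            · subst hjb
              rw [swap_apply_right]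
              simp [Perm.sigmaCongrRight, Equiv.sigmaCongrRight]
            · rw [swap_apply_of_ne_of_ne (by simpa using hja) (by simpa using hjb)]
              simp [Perm.sigmaCongrRight, Equiv.sigmaCongrRight,
                swap_apply_of_ne_of_ne hja hjb]
        · rw [swap_apply_of_ne_of_ne (fun h => hs (congrArg Sigma.fst h))
            (fun h => hs (congrArg Sigma.fst h))]
          simp [Perm.sigmaCongrRight, Equiv.sigmaCongrRight, Pi.mulSingle_eq_of_ne hs]
      change Perm.sign (Perm.sigmaCongrRight (Pi.mulSingle t (swap a b))) = -1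
      rw [h3, Perm.sign_swap]
      intro h
      exact hab (by simpa using h)
    have h4 : ψ (Pi.mulSingle t (swap a b)) = -1 := by
      change ∏ s, Perm.sign ((Pi.mulSingle t (swap a b) : ∀ t, Perm (ι t)) s) = -1
      rw [Finset.prod_eq_single t]
      · rw [Pi.mulSingle_eq_same, Perm.sign_swap hab]
      · intro s _ hs
        rw [Pi.mulSingle_eq_of_ne hs, map_one]
      · intro h; exact absurd (mem_univ t) h
    rw [h2, h4]

/-- The determinant of a block diagonal matrix. -/
lemma det_block (M : Matrix (Σ t, ι t) (Σ t, ι t) ℚ) (hM : ∀ p q, p.1 ≠ q.1 → M p q = 0) :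
    M.det = ∑ σ : ∀ t, Perm (ι t), (∏ t, (((Perm.sign (σ t) : ℤˣ) : ℤ) : ℚ)) *
      ∏ t, ∏ j, M ⟨t, j⟩ ⟨t, σ t j⟩ := by
  classical
  rw [← Matrix.det_transpose, Matrix.det_apply']
  symm
  refine Fintype.sum_of_injective (Perm.sigmaCongrRightHom ι)
    Perm.sigmaCongrRightHom_injective _ _ ?_ ?_
  · intro π hπ
    have hex : ∃ p : Σ t, ι t, (π p).1 ≠ p.1 := by
      by_contra hcon
      push Not at hcon
      apply hπ
      -- construct the permutations
      have h1 : ∀ t (j : ι t), ∃ j' : ι t, π ⟨t, j⟩ = ⟨t, j'⟩ := by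
        intro t j
        have h0 := hcon ⟨t, j⟩
        generalize π ⟨t, j⟩ = q at h0
        obtain ⟨s, j'⟩ := q
        change s = t at h0
        subst h0
        exact ⟨j', rfl⟩
      choose f hf using h1
      have hinj : ∀ t, Function.Injective (f t) := by
        intro t j j' h
        have h2 : π ⟨t, j⟩ = π ⟨t, j'⟩ := by rw [hf, hf, h]
        have h3 := π.injective h2
        simpa using h3
      refine ⟨fun t => Equiv.ofBijective (f t) ((Finite.injective_iff_bijective).1 (hinj t)), ?_⟩
      ext1 ⟨t, j⟩
      rw [hf]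
      rfl
    obtain ⟨p, hp⟩ := hex
    rw [Finset.prod_eq_zero (mem_univ p), mul_zero]
    rw [Matrix.transpose_apply]
    exact hM _ _ hp.symm
  · intro σ
    have h1 : Perm.sign (Perm.sigmaCongrRightHom ι σ) = ∏ t, Perm.sign (σ t) :=
      sign_sigmaCongrRight σ
    rw [h1, Fintype.prod_sigma]
    congr 1
    push_cast
    rfl

end Q58
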